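import Pool.Agent.Q154.War.DimJ

/-!
# Almost all integers as sums of `k + 1` shifted `k`-th powers: the exceptional shifts

For `n ≥ k + 1` variables the shifts `a` for which the number of the integers up to `X` without the
expected number of representations `N = ⌊(x_1 + a_1) ^ k + ... + (x_n + a_n) ^ k⌋` does not have order
below `X ^ (1 - ρ)` by a power of `X` form a set of Hausdorff dimension at most
`n - min 4 (n - k (1 + ρ)) / (k - 1)`. For `ρ = 0`, `n = k + 1` this is `n - 1 / (k - 1)`.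
-/

set_option autoImplicit false

namespace Pool.Agent.Results.MP_570bef_nt.ExceptionalShiftsAlmostAll

/-- at least `κ N ^ (n / k - 1)` vectors of positive integers represent `N` -/
def ManyReps (k n : ℕ) (κ : ℝ) (a : Fin n → ℝ) (N : ℕ) : Prop :=
  ∃ S : Finset (Fin n → ℕ), κ * (N : ℝ) ^ ((n : ℝ) / k - 1) ≤ (S.card : ℝ) ∧
    ∀ x ∈ S, (∀ i, 0 < x i) ∧ ⌊∑ i, ((x i : ℝ) + a i) ^ k⌋ = (N : ℤ)

/-- at most `C X ^ (1 - ρ)` of the integers `N ≤ X` lack such representations, for all `X ≥ 1` -/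
def FewExceptions (k n : ℕ) (κ ρ : ℝ) (a : Fin n → ℝ) : Prop :=
  ∃ C : ℝ, ∀ X : ℝ, 1 ≤ X →
    ({N : ℕ | (N : ℝ) ≤ X ∧ ¬ ManyReps k n κ a N}.ncard : ℝ) ≤ C * X ^ (1 - ρ)

theorem result : ∀ k n : ℕ, 3 ≤ k → k + 1 ≤ n → 2 * n ≤ 3 ^ k → ∃ κ : ℝ, 0 < κ ∧
    ∀ ρ : ℝ, 0 ≤ ρ → ρ < 1 → k * (1 + ρ) < n →
      dimH {a : Fin n → ℝ | ¬ ∃ ρ' : ℝ, ρ < ρ' ∧ FewExceptions k n κ ρ' a} ≤
        ENNReal.ofReal ((n : ℝ) - min 4 ((n : ℝ) - k * (1 + ρ)) / ((k : ℝ) - 1)) := by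
  intro k n hk hn hn3
  obtain ⟨m, rfl⟩ : ∃ m, n = m + 1 := ⟨n - 1, by omega⟩
  refine ⟨Pool.Agent.Q154.War.κ1 k m, Pool.Agent.Q154.War.κ1_pos (by omega), ?_⟩
  intro ρ hρ hρ1 hρ2
  have h := Pool.Agent.Q154.War.dim_almost (k := k) (m := m) (ρ := ρ) hk (by omega) hn3 hρ hρ1
    (by push_cast at hρ2; exact hρ2)
  unfold FewExceptions ManyReps
  unfold Pool.Agent.Q154.War.Sav Pool.Agent.Q154.War.poor Pool.Agent.Q154.War.RichN
    Pool.Agent.Q154.War.mu2 at h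
  push_cast at h ⊢
  exact h

end Pool.Agent.Results.MP_570bef_nt.ExceptionalShiftsAlmostAll
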