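import Pool.Agent.Q154.War.ThinShifts

/-!
# A linear number of k-th powers suffices when few of them are shifted

(1) Let `4 ≤ m ≤ k < 2 ^ j` and `k (1 - 1/k) ^ s ≤ m - 1`. For Lebesgue-almost every
`α ∈ [0,1]^(m + j)` every sufficiently large integer is the integral part of a sum of `s` positive
`k`-th powers and `m + j` powers `(x i + α i) ^ k`.

(2) Hence, for every `ε > 0`, a number `≤ C(ε) k` of `k`-th powers represents all large integers,
when at most `ε k` of them are replaced by `k`-th powers shifted by almost any real numbers.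
-/

set_option autoImplicit false

namespace Pool.Agent.Results.MP_570bef_nt.FewShifts

open MeasureTheory Filter Topology Pool.Agent.Q154.War

/-- **Waring with few generic shifts.** -/
theorem result :
    (∀ k m j s : ℕ, 4 ≤ m → m ≤ k → k < 2 ^ j →
      (k : ℝ) * (1 - 1 / (k : ℝ)) ^ s ≤ (m : ℝ) - 1 →
      ∀ᵐ α : Fin (m + j) → ℝ, (∀ i, α i ∈ Set.Icc (0 : ℝ) 1) →
        ∃ N₀ : ℕ, ∀ N : ℕ, N₀ ≤ N → ∃ y : Fin s → ℕ, ∃ x : Fin (m + j) → ℕ,
          (∀ i, 0 < y i) ∧ (∀ i, 0 < x i) ∧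
          ⌊∑ i, (y i : ℝ) ^ k + ∑ i, ((x i : ℝ) + α i) ^ k⌋ = (N : ℤ)) ∧
    (∀ ε : ℝ, 0 < ε → ∃ C : ℝ, ∃ k₀ : ℕ, ∀ k : ℕ, k₀ ≤ k → ∃ s t : ℕ,
      ((s + t : ℕ) : ℝ) ≤ C * k ∧ (t : ℝ) ≤ ε * k ∧
      ∀ᵐ α : Fin t → ℝ, (∀ i, α i ∈ Set.Icc (0 : ℝ) 1) →
        ∃ N₀ : ℕ, ∀ N : ℕ, N₀ ≤ N → ∃ y : Fin s → ℕ, ∃ x : Fin t → ℕ,
          (∀ i, 0 < y i) ∧ (∀ i, 0 < x i) ∧
          ⌊∑ i, (y i : ℝ) ^ k + ∑ i, ((x i : ℝ) + α i) ^ k⌋ = (N : ℤ)) := by
  refine ⟨fun k m j s hm hmk hj hs => pure_shifts hm hmk hj hs, ?_⟩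
  · intro ε hε
    obtain ⟨δ, hδ0, hδε, hδ1⟩ : ∃ δ : ℝ, 0 < δ ∧ 2 * δ ≤ ε ∧ 2 * δ ≤ 1 := by
      refine ⟨min ε 1 / 2, by positivity, ?_, ?_⟩
      · linarith [min_le_left ε 1]
      · linarith [min_le_right ε 1]
    -- `δ k` shifted powers for each of the two purposes
    set L : ℝ := Real.log (2 / δ) with hL
    have hL0 : 0 ≤ L := Real.log_nonneg (by
      rw [le_div_iff₀ hδ0]
      linarith)
    have hr : (1 : ℝ) < 2 ^ δ := Real.one_lt_rpow (by norm_num) hδ0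
    have hlim := (tendsto_pow_const_div_const_pow_of_one_lt 1 hr).eventually
      (gt_mem_nhds (by norm_num : (0 : ℝ) < 1 / 2))
    obtain ⟨k₁, hk₁⟩ := hlim.exists_forall_of_atTop
    refine ⟨L + 2, max k₁ (⌈5 / δ⌉₊ + 1), fun k hk => ?_⟩
    have hk1 : k₁ ≤ k := (le_max_left _ _).trans hk
    have hk2 : 5 / δ ≤ k := by
      have h1 : ⌈5 / δ⌉₊ + 1 ≤ k := (le_max_right _ _).trans hk
      have h2 : ((⌈5 / δ⌉₊ + 1 : ℕ) : ℝ) ≤ k := by exact_mod_cast h1
      have h3 := Nat.le_ceil (5 / δ)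
      push_cast at h2
      linarith
    rw [div_le_iff₀ hδ0] at hk2
    have hk0 : (0 : ℝ) < k := by
      by_contra h
      have : (k : ℝ) ≤ 0 := not_lt.1 h
      nlinarith
    have hkδ : (k : ℝ) * δ ≤ k := by nlinarith
    set m : ℕ := ⌊δ * k⌋₊ with hmdef
    have hm1 : (m : ℝ) ≤ δ * k := Nat.floor_le (by positivity)
    have hm2 : δ * k < m + 1 := Nat.lt_floor_add_one _
    have hm4 : 4 ≤ m := by
      have : (4 : ℝ) < m + 1 := by linarith
      have h2 : 4 < m + 1 := by exact_mod_cast this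
      omega
    have hmk : m ≤ k := by
      have : (m : ℝ) ≤ k := by linarith
      exact_mod_cast this
    have hj : k < 2 ^ m := by
      have h1 := hk₁ k hk1
      rw [pow_one, div_lt_iff₀ (by positivity)] at h1
      have h2 : ((2 : ℝ) ^ δ) ^ k = 2 ^ (δ * k) := by
        rw [← Real.rpow_mul_natCast (by norm_num)]
      have h3 : (2 : ℝ) ^ (δ * k) < 2 ^ ((m : ℝ) + 1) :=
        Real.rpow_lt_rpow_of_exponent_lt (by norm_num) hm2
      rw [Real.rpow_add (by norm_num), Real.rpow_natCast, Real.rpow_one] at h3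
      rw [h2] at h1
      have h4 : (k : ℝ) < 2 ^ m := by linarith
      exact_mod_cast h4
    set s : ℕ := ⌈k * L⌉₊ with hsdef
    have hs1 : (k : ℝ) * L ≤ s := Nat.le_ceil _
    have hs2 : (s : ℝ) ≤ k * L + 1 := (Nat.ceil_lt_add_one (by positivity)).le
    have hk1' : (1 : ℝ) ≤ k := by
      have : 0 < k := by exact_mod_cast hk0
      exact_mod_cast this
    have hpow : (1 - 1 / (k : ℝ)) ^ s ≤ δ / 2 := by
      have h1 : 1 - 1 / (k : ℝ) ≤ Real.exp (-(1 / k)) := by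
        have := Real.add_one_le_exp (-(1 / (k : ℝ)))
        linarith
      have h0 : 0 ≤ 1 - 1 / (k : ℝ) := by
        rw [sub_nonneg, div_le_one hk0]
        exact hk1'
      calc (1 - 1 / (k : ℝ)) ^ s ≤ Real.exp (-(1 / k)) ^ s := pow_le_pow_left₀ h0 h1 s
        _ = Real.exp (s * -(1 / k)) := by rw [← Real.exp_nat_mul]
        _ ≤ Real.exp (-L) := by
            rw [Real.exp_le_exp]
            have h2 : L ≤ s / k := by
              rw [le_div_iff₀ hk0]
              linarith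
            have h3 : (s : ℝ) * -(1 / k) = -(s / k) := by ring
            rw [h3]
            linarith
        _ = δ / 2 := by
            rw [hL, Real.exp_neg, Real.exp_log (by positivity), inv_div]
    refine ⟨s, m + m, ?_, ?_, ?_⟩
    · push_cast
      nlinarith
    · push_cast
      nlinarith
    · refine pure_shifts hm4 hmk hj ?_
      have h1 : (k : ℝ) * (1 - 1 / (k : ℝ)) ^ s ≤ k * (δ / 2) :=
        mul_le_mul_of_nonneg_left hpow hk0.le
      nlinarith

end Pool.Agent.Results.MP_570bef_nt.FewShifts
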