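import Mathlib
import Pool.Agent.Q83.WG.EE
import Pool.Agent.Q83.WG.Pr

/-!
# Waring's problem with generic real exponents
-/

set_option autoImplicit false

open MeasureTheory Filter

namespace Pool.Agent.Results.MP_570bef_nt.GenericExponents

/-- At least `m` tuples of primes `p` satisfy `|p_1^(t_1) + ... + p_s^(t_s) - N| ≤ r`. -/
def ManyPrimeSolutions {s : ℕ} (t : Fin s → ℝ) (N r m : ℝ) : Prop :=
  ∃ T : Finset (Fin s → ℕ), m ≤ (T.card : ℝ) ∧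
    ∀ p ∈ T, (∀ i, (p i).Prime) ∧ |∑ i, (p i : ℝ) ^ t i - N| ≤ r

/-- (1) For almost all real exponents `t_1, ..., t_s ≥ 1` with `q = 1/t_1 + ... + 1/t_s > 2` and all
`0 ≤ g < q/2 - 1`, `ε > 0`, every large real `N` has at least `N^(q-1-g-ε)` solutions of
`|p_1^(t_1) + ... + p_s^(t_s) - N| ≤ N^(-g)` in primes. (2) For all `k ≥ 1`, `s ≥ 2k+1` and almost all
`(t_1, ..., t_s)` in `[1, k+1/2)^s` every large integer is the integer part of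
`p_1^(t_1) + ... + p_s^(t_s)` for some primes `p_i`. -/
theorem result :
    (∀ s : ℕ, ∀ᵐ t : Fin s → ℝ, (∀ i, 1 ≤ t i) → 2 < ∑ i, (t i)⁻¹ →
      ∀ g : ℝ, 0 ≤ g → g < (∑ i, (t i)⁻¹) / 2 - 1 → ∀ ε : ℝ, 0 < ε →
        ∀ᶠ N : ℝ in atTop, ManyPrimeSolutions t N (N ^ (-g)) (N ^ ((∑ i, (t i)⁻¹) - 1 - g - ε))) ∧
    (∀ k s : ℕ, 1 ≤ k → 2 * k + 1 ≤ s →
      ∀ᵐ t : Fin s → ℝ, (∀ i, 1 ≤ t i ∧ t i < k + 1 / 2) →
        ∀ᶠ N : ℕ in atTop, ∃ p : Fin s → ℕ, (∀ i, (p i).Prime) ∧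
          ⌊∑ i, (p i : ℝ) ^ t i⌋ = (N : ℤ)) := by
  have main : ∀ s : ℕ, ∀ᵐ t : Fin s → ℝ, (∀ i, 1 ≤ t i) → 2 < ∑ i, (t i)⁻¹ →
      ∀ g : ℝ, 0 ≤ g → g < (∑ i, (t i)⁻¹) / 2 - 1 → ∀ ε : ℝ, 0 < ε →
        ∀ᶠ N : ℝ in atTop, ManyPrimeSolutions t N (N ^ (-g)) (N ^ ((∑ i, (t i)⁻¹) - 1 - g - ε)) := by
    intro s
    filter_upwards [Pool.Agent.Q83.WG.exp_main (fun _ : Fin s => {p : ℕ | p.Prime})
      (fun _ => Pool.Agent.Q83.WG.dense_primes)] with t ht h1 h2 g hg hg2 ε hε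
    filter_upwards [ht h1 h2 g hg hg2 ε hε] with N hN
    obtain ⟨T, h3, h4⟩ := hN
    exact ⟨T, h3, fun x hx => ⟨fun i => ((h4 x hx).1 i).1, (h4 x hx).2⟩⟩
  refine ⟨main, ?_⟩
  intro k s hk hs
  have hk0 : (0 : ℝ) < k := by exact_mod_cast hk
  filter_upwards [main s] with t ht hbox
  have hsum : 2 < ∑ i, (t i)⁻¹ := by
    have hs0 : (2 * k + 1 : ℝ) ≤ s := by exact_mod_cast hs
    have hne : (Finset.univ : Finset (Fin s)).Nonempty :=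
      Finset.univ_nonempty_iff.mpr ⟨⟨0, by omega⟩⟩
    have h1 : ∑ _i : Fin s, ((k : ℝ) + 1 / 2)⁻¹ < ∑ i, (t i)⁻¹ := by
      refine Finset.sum_lt_sum_of_nonempty hne fun i _ => ?_
      exact inv_strictAnti₀ (by linarith [(hbox i).1]) (hbox i).2
    refine lt_of_le_of_lt ?_ h1
    rw [Finset.sum_const, Finset.card_univ, Fintype.card_fin, nsmul_eq_mul, ← div_eq_mul_inv,
      le_div_iff₀ (by positivity)]
    linarith
  obtain ⟨g, hg, hg2⟩ : ∃ g : ℝ, 0 < g ∧ g < (∑ i, (t i)⁻¹) / 2 - 1 := exists_between (by linarith)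
  have h1 := ht (fun i => (hbox i).1) hsum g hg.le hg2 1 one_pos
  have h2 : ∀ᶠ N : ℝ in atTop, N ^ (-g) ≤ 1 / 4 :=
    (tendsto_rpow_neg_atTop hg).eventually (ge_mem_nhds (by norm_num))
  have h3 := (h1.and (h2.and (eventually_gt_atTop 0)))
  have h4 : Tendsto (fun N : ℕ => (N : ℝ) + 1 / 2) atTop atTop :=
    tendsto_atTop_add_const_right _ _ tendsto_natCast_atTop_atTop
  filter_upwards [h4.eventually h3] with N hN
  obtain ⟨⟨T, hT1, hT2⟩, hN2, hN3⟩ := hN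
  have hT0 : (0 : ℝ) < T.card := lt_of_lt_of_le (Real.rpow_pos_of_pos hN3 _) hT1
  obtain ⟨x, hx⟩ : T.Nonempty := Finset.card_pos.mp (by exact_mod_cast hT0)
  obtain ⟨hx1, hx2⟩ := hT2 x hx
  refine ⟨x, hx1, ?_⟩
  have hx3 := abs_le.mp (hx2.trans hN2)
  rw [Int.floor_eq_iff]
  push_cast
  constructor <;> linarith [hx3.1, hx3.2]

end Pool.Agent.Results.MP_570bef_nt.GenericExponents
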