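import Pool.Agent.Q154.War.ThinShifts

/-!
# A thin set plus generically shifted k-th powers

Let `4 ≤ m ≤ k` and let `𝒜` be any set of natural numbers with at least `c X ^ (1 - (m - 1) / k)`
elements up to `X`, for all large `X`. For Lebesgue-almost every `α ∈ [0,1]^(m + j)` every
sufficiently large real `N` can be approximated by `a + ∑ (x i + α i) ^ k`, with `a ∈ 𝒜` and `m + j`
positive integers `x i`, up to an error `< κ N ^ (-γ)`, as soon as `γ k (2 ^ j + 1) < 2 ^ j - k`.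
-/

set_option autoImplicit false

namespace Pool.Agent.Results.MP_570bef_nt.ThinSetsPlusShifts

open MeasureTheory Filter Topology Pool.Agent.Q154.War

/-- **Any thin set plus shifted powers approximates all large numbers.** -/
theorem result (k m j : ℕ) (𝒜 : Set ℕ) (c X₀ γ κ : ℝ) (hm : 4 ≤ m) (hmk : m ≤ k) (hc : 0 < c)
    (hA : ∀ X : ℝ, X₀ ≤ X →
      c * X ^ (1 - ((m : ℝ) - 1) / k) ≤ ({a : ℕ | a ∈ 𝒜 ∧ (a : ℝ) ≤ X}.ncard : ℝ))
    (hγ0 : 0 ≤ γ) (hκ : 0 < κ) (hγ : γ * k * (2 ^ j + 1) < 2 ^ j - k) :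
    ∀ᵐ α : Fin (m + j) → ℝ, (∀ i, α i ∈ Set.Icc (0 : ℝ) 1) →
      ∃ N₀ : ℝ, ∀ N : ℝ, N₀ ≤ N → ∃ a ∈ 𝒜, ∃ x : Fin (m + j) → ℕ, (∀ i, 0 < x i) ∧
        |(a : ℝ) + ∑ i, ((x i : ℝ) + α i) ^ k - N| < κ * N ^ (-γ) :=
  thin_shifts hm hmk hc hA hγ0 hκ hγ

end Pool.Agent.Results.MP_570bef_nt.ThinSetsPlusShifts
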